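import Pool.Agent.H998.HK.Spec3

set_option autoImplicit false

noncomputable section

namespace Pool.Agent.H788.HK

open MeasureTheory Filter Topology Set
open scoped ENNReal NNReal ComplexConjugate ContDiff InnerProductSpace
open Pool.Agent.H998.HK

section cfc

variable {H : Type} [NormedAddCommGroup H] [InnerProductSpace ℂ H] [CompleteSpace H]
variable {R : H →L[ℂ] H}

/-- the quadratic form `re ⟨x, f(R) x⟩` -/
def Q (R : H →L[ℂ] H) (x : H) (f : ℝ → ℝ) : ℝ := RCLike.re (inner ℂ x (cfc f R x))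

lemma norm_cfc_sq (hR : IsSelfAdjoint R) {f : ℝ → ℝ} (hf : ContinuousOn f (spectrum ℝ R))
    (x : H) : ‖cfc f R x‖ ^ 2 = Q R x (fun r => f r ^ 2) := by
  have h1 : cfc (fun r => f r ^ 2) R = cfc f R * cfc f R := by
    rw [← cfc_mul f f R hf hf]; congr; ext; ring
  have h2 : IsSelfAdjoint (cfc f R) := cfc_predicate f R
  have h3 := ContinuousLinearMap.adjoint_inner_right (cfc f R) x (cfc f R x)
  rw [h2.adjoint_eq] at h3
  rw [Q, h1, ContinuousLinearMap.mul_apply, h3, inner_self_eq_norm_sq]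

lemma Q_congr {x : H} {f g : ℝ → ℝ} (h : ∀ r ∈ spectrum ℝ R, f r = g r) :
    Q R x f = Q R x g := by
  rw [Q, Q, cfc_congr h]

lemma Q_nonneg (hR : IsSelfAdjoint R) {f : ℝ → ℝ} (hf : ContinuousOn f (spectrum ℝ R))
    (h0 : ∀ r ∈ spectrum ℝ R, 0 ≤ f r) (x : H) : 0 ≤ Q R x f := by
  have h1 : Q R x f = ‖cfc (fun r => √(f r)) R x‖ ^ 2 := by
    rw [norm_cfc_sq hR (f := fun r => √(f r)) (Real.continuous_sqrt.comp_continuousOn hf)]
    exact Q_congr fun r hr => (Real.sq_sqrt (h0 r hr)).symm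
  rw [h1]
  positivity

lemma Q_sum (hR : IsSelfAdjoint R) {ι : Type} (s : Finset ι) (c : ι → ℝ) (F : ι → ℝ → ℝ)
    (hF : ∀ i ∈ s, ContinuousOn (F i) (spectrum ℝ R)) (x : H) :
    Q R x (fun r => ∑ i ∈ s, c i * F i r) = ∑ i ∈ s, c i * Q R x (F i) := by
  have h1 : cfc (fun r => ∑ i ∈ s, c i * F i r) R = ∑ i ∈ s, c i • cfc (F i) R := by
    have h2 := cfc_sum (fun i r => c i * F i r) R s (fun i hi => continuousOn_const.mul (hF i hi))
    have h3 : (∑ i ∈ s, fun r => c i * F i r) = fun r => ∑ i ∈ s, c i * F i r := by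
      ext r; simp
    rw [h3] at h2
    rw [h2]
    refine Finset.sum_congr rfl fun i hi => ?_
    exact cfc_const_mul (c i) (F i) R (hF i hi)
  rw [Q, h1, ContinuousLinearMap.sum_apply, inner_sum, map_sum]
  refine Finset.sum_congr rfl fun i _ => ?_
  rw [ContinuousLinearMap.smul_apply, inner_smul_right_eq_smul, Q]
  simp

lemma Q_sub (hR : IsSelfAdjoint R) {f g : ℝ → ℝ} (hf : ContinuousOn f (spectrum ℝ R))
    (hg : ContinuousOn g (spectrum ℝ R)) (x : H) :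
    Q R x (fun r => f r - g r) = Q R x f - Q R x g := by
  rw [Q, cfc_sub f g R hf hg, ContinuousLinearMap.sub_apply, inner_sub_right, map_sub]
  rfl

lemma Q_mono (hR : IsSelfAdjoint R) {f g : ℝ → ℝ} (hf : ContinuousOn f (spectrum ℝ R))
    (hg : ContinuousOn g (spectrum ℝ R)) (h : ∀ r ∈ spectrum ℝ R, f r ≤ g r) (x : H) :
    Q R x f ≤ Q R x g := by
  have := Q_nonneg hR (hg.sub hf) (fun r hr => sub_nonneg.2 (h r hr)) x
  have h2 := Q_sub hR hg hf x
  change 0 ≤ Q R x (fun r => g r - f r) at this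
  linarith

/-- upper bound of sums of squares -/
lemma sum_sq_le (hR : IsSelfAdjoint R) {ι : Type} (s : Finset ι) (f : ι → ℝ → ℝ) (C : ℝ)
    (hf : ∀ i ∈ s, ContinuousOn (f i) (spectrum ℝ R))
    (h : ∀ r ∈ spectrum ℝ R, ∑ i ∈ s, f i r ^ 2 ≤ C) (x : H) :
    ∑ i ∈ s, ‖cfc (f i) R x‖ ^ 2 ≤ C * ‖x‖ ^ 2 := by
  have h1 : ∑ i ∈ s, ‖cfc (f i) R x‖ ^ 2 = Q R x (fun r => ∑ i ∈ s, (1 : ℝ) * f i r ^ 2) := by
    rw [Q_sum hR s (fun _ => 1) (fun i r => f i r ^ 2) (fun i hi => (hf i hi).pow 2)]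
    refine Finset.sum_congr rfl fun i hi => ?_
    rw [one_mul, norm_cfc_sq hR (hf i hi)]
  have h2 : C * ‖x‖ ^ 2 = Q R x (fun _ => C) := by
    rw [Q, cfc_const C R hR, Algebra.algebraMap_eq_smul_one, ContinuousLinearMap.smul_apply,
      ContinuousLinearMap.one_apply, inner_smul_right_eq_smul]
    have : RCLike.re (inner ℂ x x) = ‖x‖ ^ 2 := inner_self_eq_norm_sq x
    rw [← this]
    simp
  rw [h1, h2]
  refine Q_mono hR ?_ continuousOn_const ?_ x
  · exact continuousOn_finset_sum s fun i hi => continuousOn_const.mul ((hf i hi).pow 2)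
  · intro r hr
    simpa using h r hr

/-- lower bound of sums of squares -/
lemma le_sum_sq (hR : IsSelfAdjoint R) {ι : Type} (s : Finset ι) (f : ι → ℝ → ℝ) (c : ι → ℝ)
    (C : ℝ) (h : ℝ → ℝ) (hf : ∀ i ∈ s, ContinuousOn (f i) (spectrum ℝ R))
    (hh : ContinuousOn h (spectrum ℝ R))
    (hle : ∀ r ∈ spectrum ℝ R, C * h r ^ 2 ≤ ∑ i ∈ s, c i * f i r ^ 2) (x : H) :
    C * ‖cfc h R x‖ ^ 2 ≤ ∑ i ∈ s, c i * ‖cfc (f i) R x‖ ^ 2 := by
  have h1 : ∑ i ∈ s, c i * ‖cfc (f i) R x‖ ^ 2 =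
      Q R x (fun r => ∑ i ∈ s, c i * f i r ^ 2) := by
    rw [Q_sum hR s c (fun i r => f i r ^ 2) (fun i hi => (hf i hi).pow 2)]
    refine Finset.sum_congr rfl fun i hi => ?_
    rw [norm_cfc_sq hR (hf i hi)]
  have h2 : C * ‖cfc h R x‖ ^ 2 = Q R x (fun r => ∑ _i ∈ Finset.range 1, C * h r ^ 2) := by
    rw [Q_sum hR (Finset.range 1) (fun _ => C) (fun _ r => h r ^ 2) (fun i hi => hh.pow 2)]
    rw [Finset.sum_range_one, norm_cfc_sq hR hh]
  rw [h1, h2]
  refine Q_mono hR ?_ ?_ ?_ x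
  · exact continuousOn_finset_sum _ fun i hi => continuousOn_const.mul (hh.pow 2)
  · exact continuousOn_finset_sum s fun i hi => continuousOn_const.mul ((hf i hi).pow 2)
  · intro r hr
    simpa using hle r hr

lemma norm_cfc_le (hR : IsSelfAdjoint R) {f : ℝ → ℝ} (hf : ContinuousOn f (spectrum ℝ R))
    {C : ℝ} (hC : 0 ≤ C) (h : ∀ r ∈ spectrum ℝ R, |f r| ≤ C) (x : H) :
    ‖cfc f R x‖ ≤ C * ‖x‖ := by
  have := sum_sq_le hR (Finset.range 1) (fun _ => f) (C ^ 2) (fun _ _ => hf)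
    (fun r hr => by
      rw [Finset.sum_range_one, ← sq_abs]
      exact pow_le_pow_left₀ (abs_nonneg _) (h r hr) 2) x
  rw [Finset.sum_range_one, ← mul_pow] at this
  exact (sq_le_sq₀ (norm_nonneg _) (by positivity)).1 this

end cfc

end Pool.Agent.H788.HK
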