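import Pool.Agent.H998.HK.Spec3

set_option autoImplicit false

noncomputable section

namespace Pool.Agent.H788.HK

open MeasureTheory Filter Topology Set
open scoped ENNReal NNReal ComplexConjugate InnerProductSpace
open Pool.Agent.H998.HK

section gen

variable {H : Type} [NormedAddCommGroup H] [NormedSpace ℝ H]

lemma int_smul {φ : E3 → ℝ} {F : E3 → H} (hφ : Continuous φ) (hc : HasCompactSupport φ)
    (hF : MemLp F 2) : Integrable (fun x => φ x • F x) := by
  have h1 : Integrable (fun x => φ x ^ 2) := by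
    refine (hφ.pow 2).integrable_of_hasCompactSupport ?_
    exact hc.comp_left (g := fun t : ℝ => t ^ 2) (by simp)
  have h2 : Integrable (fun x => ‖F x‖ ^ 2) := hF.integrable_norm_pow two_ne_zero
  refine (h1.add h2).mono' (hφ.aestronglyMeasurable.smul hF.aestronglyMeasurable) ?_
  refine Eventually.of_forall fun x => ?_
  rw [norm_smul, Real.norm_eq_abs, Pi.add_apply, ← sq_abs]
  nlinarith [sq_nonneg (|φ x| - ‖F x‖), sq_nonneg (|φ x|), sq_nonneg ‖F x‖]

lemma test_cont {φ : E3 → ℝ} (h : Test φ) : Continuous φ := h.1.continuous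

lemma test_pd_cont {φ : E3 → ℝ} (h : Test φ) (i : Fin 3) : Continuous (pd i φ) := by
  have := h.1.continuous_fderiv (by simp)
  exact this.clm_apply continuous_const

lemma test_pd_supp {φ : E3 → ℝ} (h : Test φ) (i : Fin 3) : HasCompactSupport (pd i φ) := by
  have := h.2.fderiv (𝕜 := ℝ)
  exact this.comp_left (g := fun L : E3 →L[ℝ] ℝ => L (EuclideanSpace.single i (1 : ℝ))) rfl

lemma om2_meas (m : ℕ) : Measurable (om2 m) := by
  unfold om2
  fun_prop

lemma om2_bound {m : ℕ} {ρ : ℝ} (hρ : 0 < ρ) {F : E3 → ℝ≥0∞} (hF : ∀ x, ‖x‖ < ρ → F x = 0) :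
    ∫⁻ x, om2 m x * F x ≤ ENNReal.ofReal (ρ ^ (-(2 * (m : ℝ) + 1 / 2))) * ∫⁻ x, F x := by
  rw [← lintegral_const_mul' _ _ ENNReal.ofReal_ne_top]
  refine lintegral_mono fun x => ?_
  rcases lt_or_ge ‖x‖ ρ with h | h
  · change om2 m x * F x ≤ ENNReal.ofReal (ρ ^ (-(2 * (m : ℝ) + 1 / 2))) * F x
    rw [hF x h]; simp
  · change om2 m x * F x ≤ ENNReal.ofReal (ρ ^ (-(2 * (m : ℝ) + 1 / 2))) * F x
    gcongr
    unfold om2
    apply ENNReal.ofReal_le_ofReal
    exact Real.rpow_le_rpow_of_nonpos hρ h (by have := Nat.cast_nonneg (α := ℝ) m; linarith)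

lemma lint_sq_lt_top {F : E3 → H} (hF : MemLp F 2) :
    ∫⁻ x, ENNReal.ofReal (‖F x‖ ^ 2) < ∞ := by
  have h2 : Integrable (fun x => ‖F x‖ ^ 2) := hF.integrable_norm_pow two_ne_zero
  have := h2.hasFiniteIntegral
  rw [hasFiniteIntegral_iff_norm] at this
  simpa [abs_of_nonneg] using this

end gen

section step

variable {H : Type} [NormedAddCommGroup H] [InnerProductSpace ℂ H]

/-- integrability of `V χ` -/
lemma int_V {V : E3 → ℝ} {r0 M : ℝ} {χ : E3 → H} (hV : Measurable V)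
    (hVM : (∫⁻ x in Metric.closedBall (0 : E3) r0, ENNReal.ofReal (|V x| ^ (3 / 2 : ℝ))) ^
      (2 / 3 : ℝ) ≤ ENNReal.ofReal M)
    (hχ : MemLp χ 2) (hVχ : ∫⁻ x, ENNReal.ofReal (|V x| * ‖χ x‖ ^ 2) < ∞)
    (h0 : ∀ x, r0 < ‖x‖ → χ x = 0) : Integrable (fun x => V x • χ x) := by
  have hfin : ∫⁻ x in Metric.closedBall (0 : E3) r0, ENNReal.ofReal (|V x| ^ (3 / 2 : ℝ)) < ∞ := by
    by_contra hcon
    rw [not_lt, top_le_iff] at hcon
    rw [hcon, ENNReal.top_rpow_of_pos (by norm_num), top_le_iff] at hVM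
    exact ENNReal.ofReal_ne_top hVM
  have i1 : Integrable (fun x => (Metric.closedBall (0 : E3) r0).indicator
      (fun x => 1 + |V x| ^ (3 / 2 : ℝ)) x) := by
    rw [integrable_indicator_iff Metric.isClosed_closedBall.measurableSet]
    refine Integrable.add ?_ ?_
    · refine integrable_const_iff.2 (Or.inr ?_)
      rw [isFiniteMeasure_restrict]
      exact measure_closedBall_lt_top.ne
    · refine ⟨(hV.abs.pow_const _).aestronglyMeasurable, ?_⟩
      rw [hasFiniteIntegral_iff_norm]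
      refine lt_of_le_of_lt (le_of_eq ?_) hfin
      refine lintegral_congr fun x => ?_
      rw [Real.norm_eq_abs, abs_of_nonneg (by positivity)]
  have i2 : Integrable (fun x => |V x| * ‖χ x‖ ^ 2) := by
    refine ⟨?_, ?_⟩
    · exact (hV.abs.aestronglyMeasurable).mul (hχ.aestronglyMeasurable.norm.pow 2)
    · rw [hasFiniteIntegral_iff_norm]
      refine lt_of_le_of_lt (le_of_eq ?_) hVχ
      refine lintegral_congr fun x => ?_
      rw [Real.norm_eq_abs, abs_of_nonneg (by positivity)]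
  refine (i1.add i2).mono' (hV.aestronglyMeasurable.smul hχ.aestronglyMeasurable) ?_
  refine Eventually.of_forall fun x => ?_
  rw [Pi.add_apply, norm_smul, Real.norm_eq_abs]
  by_cases hx : x ∈ Metric.closedBall (0 : E3) r0
  · rw [indicator_of_mem hx]
    have h1 : |V x| ≤ 1 + |V x| ^ (3 / 2 : ℝ) := by
      rcases le_total (|V x|) 1 with h | h
      · have : 0 ≤ |V x| ^ (3 / 2 : ℝ) := by positivity
        linarith
      · have := Real.rpow_le_rpow_of_exponent_le h (show (1 : ℝ) ≤ 3 / 2 by norm_num)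
        rw [Real.rpow_one] at this
        linarith
    nlinarith [abs_nonneg (V x), norm_nonneg (χ x), sq_nonneg (‖χ x‖ - 1), sq_nonneg (‖χ x‖)]
  · have : r0 < ‖x‖ := by simpa using hx
    rw [h0 x this]
    simp only [norm_zero, mul_zero]
    have : 0 ≤ (Metric.closedBall (0 : E3) r0).indicator (fun x => 1 + |V x| ^ (3 / 2 : ℝ)) x :=
      indicator_nonneg (fun y _ => by positivity) x
    simpa using this

variable [CompleteSpace H]

/-- one spectral window -/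
lemma step {C : ℝ≥0}
    (hC : ∀ (H : Type) [NormedAddCommGroup H] [InnerProductSpace ℂ H]
      [CompleteSpace H] [TopologicalSpace.SeparableSpace H] (V : E3 → ℝ) (κ ρ r0 M : ℝ) (m : ℕ)
      (u g₁ g₂ g₃ : E3 → H) (D : Fin 3 → E3 → H), Measurable V → 1 ≤ κ → 0 < ρ → ρ < r0 → r0 ≤ 1 →
      1 ≤ m → 0 ≤ M →
      (∫⁻ x in Metric.closedBall (0 : E3) r0, ENNReal.ofReal (|V x| ^ (3 / 2 : ℝ))) ^ (2 / 3 : ℝ) ≤
        ENNReal.ofReal M →
      MemLp u 2 → (∀ i, MemLp (D i) 2) → MemLp g₁ 2 → MemLp g₂ 2 → MemLp g₃ 2 → WeakGrad u D →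
      (∀ φ : E3 → ℝ, Test φ → ∫ x, (∑ i, pd i φ x • D i x + (κ ^ 2 * φ x) • u x) =
        ∫ x, φ x • (√|V x| • g₁ x + √κ • g₂ x + g₃ x)) →
      (∀ x, (‖x‖ < ρ ∨ r0 < ‖x‖) → u x = 0 ∧ g₁ x = 0 ∧ g₂ x = 0 ∧ g₃ x = 0 ∧ ∀ i, D i x = 0) →
      (∫⁻ x, om2 m x * ENNReal.ofReal (|V x| * ‖u x‖ ^ 2)) + ENNReal.ofReal κ *
          ∫⁻ x, om2 m x * ENNReal.ofReal (‖u x‖ ^ 2) ≤
        C * ENNReal.ofReal ((M + r0) ^ 2) *
          ∫⁻ x, om2 m x * ENNReal.ofReal (‖g₁ x‖ ^ 2 + ‖g₂ x‖ ^ 2 + ‖g₃ x‖ ^ 2))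
    [TopologicalSpace.SeparableSpace H] {R : H →L[ℂ] H} {V : E3 → ℝ} {ρ r0 M : ℝ} {m : ℕ}
    {χ g g₃ : E3 → H} {D : Fin 3 → E3 → H}
    (hV : Measurable V) (hρ : 0 < ρ) (hρr : ρ < r0) (hr0 : r0 ≤ 1) (hm : 1 ≤ m) (hM : 0 ≤ M)
    (hCM : (C : ℝ≥0∞) * ENNReal.ofReal ((M + r0) ^ 2) ≤ 1)
    (hVM : (∫⁻ x in Metric.closedBall (0 : E3) r0, ENNReal.ofReal (|V x| ^ (3 / 2 : ℝ))) ^
      (2 / 3 : ℝ) ≤ ENNReal.ofReal M)
    (hχ : MemLp χ 2) (hg : MemLp g 2) (hg₃ : MemLp g₃ 2) (hD : ∀ i, MemLp (D i) 2)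
    (hW : WeakGrad χ D) (hVχ : ∫⁻ x, ENNReal.ofReal (|V x| * ‖χ x‖ ^ 2) < ∞)
    (hE : HEq R V χ D g g₃)
    (h0 : ∀ x, (‖x‖ < ρ ∨ r0 < ‖x‖) → χ x = 0 ∧ g x = 0 ∧ g₃ x = 0 ∧ ∀ i, D i x = 0)
    {κ : ℝ} (hκ : 1 ≤ κ) (G L E : H →L[ℂ] H) (h1 : L * R = G) (h2 : L = κ ^ 2 • G + E) :
    ENNReal.ofReal κ * ∫⁻ x, om2 m x * ENNReal.ofReal (‖G (χ x)‖ ^ 2) ≤
      C * ENNReal.ofReal ((M + r0) ^ 2) *
        ∫⁻ x, om2 m x * ENNReal.ofReal (‖(√κ)⁻¹ • (L * Rpow R (3 / 4)) (g x)‖ ^ 2 +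
          ‖G (g₃ x) - E (χ x)‖ ^ 2) := by
  have hκ0 : 0 < κ := by linarith
  have hsκ : √κ ≠ 0 := (Real.sqrt_pos.2 hκ0).ne'
  have hLR : ∀ h, L (R h) = G h := fun h => by rw [← h1]; rfl
  have hLE : ∀ h, L h = κ ^ 2 • G h + E h := fun h => by rw [h2]; rfl
  -- the functions
  let g₁ : E3 → H := fun x => (V x / √|V x|) • G (χ x)
  let g₂ : E3 → H := fun x => (√κ)⁻¹ • (L * Rpow R (3 / 4)) (g x)
  let g₃' : E3 → H := fun x => G (g₃ x) - E (χ x)
  have hg₁n : ∀ x, ‖g₁ x‖ ^ 2 = |V x| * ‖G (χ x)‖ ^ 2 := by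
    intro x
    simp only [g₁]
    rw [norm_smul, mul_pow, Real.norm_eq_abs, sq_abs, div_pow, Real.sq_sqrt (abs_nonneg _)]
    rcases eq_or_ne (V x) 0 with h | h
    · rw [h]; simp
    · rw [← sq_abs (V x), pow_two, mul_div_assoc, div_self (abs_ne_zero.2 h), mul_one]
  have hGχ : MemLp (fun x => G (χ x)) 2 := G.comp_memLp' hχ
  have hVG : ∫⁻ x, ENNReal.ofReal (|V x| * ‖G (χ x)‖ ^ 2) < ∞ := by
    calc ∫⁻ x, ENNReal.ofReal (|V x| * ‖G (χ x)‖ ^ 2)
        ≤ ∫⁻ x, ENNReal.ofReal (‖G‖ ^ 2) * ENNReal.ofReal (|V x| * ‖χ x‖ ^ 2) := by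
          refine lintegral_mono fun x => ?_
          rw [← ENNReal.ofReal_mul (by positivity)]
          apply ENNReal.ofReal_le_ofReal
          have := G.le_opNorm (χ x)
          have h3 : ‖G (χ x)‖ ^ 2 ≤ (‖G‖ * ‖χ x‖) ^ 2 := by gcongr
          have h4 := mul_le_mul_of_nonneg_left h3 (abs_nonneg (V x))
          nlinarith
      _ = ENNReal.ofReal (‖G‖ ^ 2) * ∫⁻ x, ENNReal.ofReal (|V x| * ‖χ x‖ ^ 2) :=
          lintegral_const_mul' _ _ ENNReal.ofReal_ne_top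
      _ < ∞ := ENNReal.mul_lt_top ENNReal.ofReal_lt_top hVχ
  have hg₁ : MemLp g₁ 2 := by
    have hm0 : Measurable fun x => V x / √|V x| := by fun_prop
    have hm1 : AEStronglyMeasurable g₁ :=
      (hm0.aestronglyMeasurable (μ := volume)).smul hGχ.aestronglyMeasurable
    rw [memLp_two_iff_integrable_sq_norm hm1]
    refine ⟨hm1.norm.pow 2, ?_⟩
    rw [hasFiniteIntegral_iff_norm]
    refine lt_of_le_of_lt (le_of_eq ?_) hVG
    refine lintegral_congr fun x => ?_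
    rw [Real.norm_eq_abs, abs_of_nonneg (by positivity), ← hg₁n]
  have hg₂ : MemLp g₂ 2 := ((L * Rpow R (3 / 4)).comp_memLp' hg).const_smul _
  have hg₃' : MemLp g₃' 2 := (G.comp_memLp' hg₃).sub (E.comp_memLp' hχ)
  have hDG : ∀ i, MemLp (fun x => G (D i x)) 2 := fun i => G.comp_memLp' (hD i)
  have hVint : Integrable (fun x => V x • χ x) :=
    int_V hV hVM hχ hVχ fun x hx => (h0 x (Or.inr hx)).1
  have hWG : WeakGrad (fun x => G (χ x)) (fun i x => G (D i x)) := by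
    intro i φ hφ
    have e1 := hW i φ hφ
    have e2 := congrArg G e1
    have i1 := int_smul (test_pd_cont hφ i) (test_pd_supp hφ i) hχ
    have i2 := int_smul (test_cont hφ) hφ.2 (hD i)
    rw [map_neg, ← G.integral_comp_comm i1, ← G.integral_comp_comm i2] at e2
    simpa only [ContinuousLinearMap.map_smul_of_tower] using e2
  have hWE : ∀ φ : E3 → ℝ, Test φ →
      ∫ x, (∑ i, pd i φ x • G (D i x) + (κ ^ 2 * φ x) • G (χ x)) =
        ∫ x, φ x • (√|V x| • g₁ x + √κ • g₂ x + g₃' x) := by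
    intro φ hφ
    have e1 := hE φ hφ
    -- integrability
    have ia : Integrable (fun x => ∑ i, pd i φ x • R (D i x) + φ x • χ x) := by
      refine Integrable.add (integrable_finsetSum _ fun i _ => ?_) (int_smul (test_cont hφ) hφ.2 hχ)
      exact int_smul (test_pd_cont hφ i) (test_pd_supp hφ i) (R.comp_memLp' (hD i))
    have iV : Integrable (fun x => φ x • R (V x • χ x)) := by
      obtain ⟨B, hB⟩ := (test_cont hφ).bounded_above_of_compact_support hφ.2
      have := (R.integrable_comp hVint)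
      exact Integrable.bdd_smul (𝕜 := ℝ) (φ := φ) this B (test_cont hφ).aestronglyMeasurable
        (Eventually.of_forall hB)
    have ib : Integrable (fun x => φ x • (R (V x • χ x) + Rpow R (3 / 4) (g x) + R (g₃ x))) := by
      have i2 := int_smul (test_cont hφ) hφ.2 ((Rpow R (3 / 4)).comp_memLp' hg)
      have i3 := int_smul (test_cont hφ) hφ.2 (R.comp_memLp' hg₃)
      refine ((iV.add i2).add i3).congr (Eventually.of_forall fun x => ?_)
      simp [smul_add]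
    have e2 := congrArg L e1
    rw [← L.integral_comp_comm ia, ← L.integral_comp_comm ib] at e2
    have iE : Integrable (fun x => φ x • E (χ x)) :=
      int_smul (test_cont hφ) hφ.2 (E.comp_memLp' hχ)
    have eL : (fun x => L (∑ i, pd i φ x • R (D i x) + φ x • χ x)) =
        fun x => (∑ i, pd i φ x • G (D i x) + (κ ^ 2 * φ x) • G (χ x)) + φ x • E (χ x) := by
      funext x
      rw [map_add, map_sum]
      simp only [ContinuousLinearMap.map_smul_of_tower, hLR]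
      rw [hLE, smul_add, smul_smul, mul_comm (φ x), add_assoc]
    have eR : (fun x => L (φ x • (R (V x • χ x) + Rpow R (3 / 4) (g x) + R (g₃ x)))) =
        fun x => φ x • (√|V x| • g₁ x + √κ • g₂ x + g₃' x) + φ x • E (χ x) := by
      funext x
      rw [ContinuousLinearMap.map_smul_of_tower, map_add, map_add, hLR, hLR,
        ContinuousLinearMap.map_smul_of_tower, ← smul_add]
      congr 1
      simp only [g₁, g₂, g₃']
      rw [smul_smul, smul_smul, mul_inv_cancel₀ hsκ, one_smul]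
      have : √|V x| * (V x / √|V x|) = V x := by
        rcases eq_or_ne (V x) 0 with h | h
        · rw [h]; simp
        · rw [mul_div_cancel₀]
          exact (Real.sqrt_pos.2 (abs_pos.2 h)).ne'
      rw [this, ContinuousLinearMap.mul_apply]
      abel
    rw [eL, eR] at e2
    have il : Integrable (fun x => ∑ i, pd i φ x • G (D i x) + (κ ^ 2 * φ x) • G (χ x)) := by
      refine Integrable.add (integrable_finsetSum _ fun i _ => ?_) ?_
      · exact int_smul (test_pd_cont hφ i) (test_pd_supp hφ i) (hDG i)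
      · have := Integrable.fun_smul (κ ^ 2) (int_smul (test_cont hφ) hφ.2 hGχ)
        refine this.congr (Eventually.of_forall fun x => ?_)
        change κ ^ 2 • φ x • G (χ x) = (κ ^ 2 * φ x) • G (χ x)
        rw [smul_smul]
    have ir : Integrable (fun x => φ x • (√|V x| • g₁ x + √κ • g₂ x + g₃' x)) := by
      have := (L.integrable_comp ib)
      rw [eR] at this
      have h5 := this.sub iE
      refine h5.congr (Eventually.of_forall fun x => ?_)
      simp
    rw [integral_add il iE, integral_add ir iE] at e2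
    exact add_right_cancel e2
  have hzero : ∀ x, (‖x‖ < ρ ∨ r0 < ‖x‖) → (fun x => G (χ x)) x = 0 ∧ g₁ x = 0 ∧ g₂ x = 0 ∧
      g₃' x = 0 ∧ ∀ i, (fun i x => G (D i x)) i x = 0 := by
    intro x hx
    obtain ⟨a1, a2, a3, a4⟩ := h0 x hx
    simp only [g₁, g₂, g₃', a1, a2, a3, map_zero, smul_zero, sub_zero, a4, true_and, implies_true]
  have key := hC H V κ ρ r0 M m (fun x => G (χ x)) g₁ g₂ g₃' (fun i x => G (D i x)) hV hκ hρ hρr
    hr0 hm hM hVM hGχ hDG hg₁ hg₂ hg₃' hWG hWE hzero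
  -- absorb
  set A := ∫⁻ x, om2 m x * ENNReal.ofReal (|V x| * ‖G (χ x)‖ ^ 2) with hA
  set B := ∫⁻ x, om2 m x * ENNReal.ofReal (‖g₂ x‖ ^ 2 + ‖g₃' x‖ ^ 2) with hB
  have hAfin : A < ∞ := by
    refine lt_of_le_of_lt (om2_bound hρ ?_) (ENNReal.mul_lt_top ENNReal.ofReal_lt_top hVG)
    intro x hx
    rw [(h0 x (Or.inl hx)).1]; simp
  have hsplit : ∫⁻ x, om2 m x * ENNReal.ofReal (‖g₁ x‖ ^ 2 + ‖g₂ x‖ ^ 2 + ‖g₃' x‖ ^ 2) = A + B := by
    rw [hA, hB, ← lintegral_add_left']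
    · refine lintegral_congr fun x => ?_
      rw [← mul_add, ← ENNReal.ofReal_add (by positivity) (by positivity), hg₁n, add_assoc]
    · refine (om2_meas m).aemeasurable.mul ?_
      refine ENNReal.measurable_ofReal.comp_aemeasurable ?_
      exact hV.abs.aemeasurable.mul (hGχ.aestronglyMeasurable.norm.aemeasurable.pow_const 2)
  rw [hsplit, mul_add] at key
  have h7 : (C : ℝ≥0∞) * ENNReal.ofReal ((M + r0) ^ 2) * A ≤ A := by
    calc _ ≤ 1 * A := by gcongr
      _ = A := one_mul A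
  have h8 := key.trans (add_le_add_left h7 _)
  exact (ENNReal.add_le_add_iff_left hAfin.ne).1 h8

end step

end Pool.Agent.H788.HK
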