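import Mathlib

set_option autoImplicit false

noncomputable section

namespace Pool.Agent.H788.HK

open Filter Topology Set

/-- clamp to `[0,1]` -/
def sc (x : ℝ) : ℝ := min 1 (max 0 x)

lemma sc_cont : Continuous sc := by unfold sc; fun_prop
lemma sc_mono : Monotone sc := fun x y h => by unfold sc; gcongr
lemma sc_of_nonpos {x : ℝ} (h : x ≤ 0) : sc x = 0 := by
  unfold sc; rw [max_eq_left h]; norm_num
lemma sc_of_one_le {x : ℝ} (h : 1 ≤ x) : sc x = 1 := by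
  unfold sc; rw [max_eq_right (by linarith), min_eq_left h]
lemma sc_nonneg (x : ℝ) : 0 ≤ sc x := le_min zero_le_one (le_max_left _ _)
lemma sc_le_one (x : ℝ) : sc x ≤ 1 := min_le_left _ _

/-- the cut-off at small spectral values -/
def th (δ r : ℝ) : ℝ := sc (2 * r / δ - 1)
/-- tents -/
def tt (N k : ℕ) (r : ℝ) : ℝ := sc (N * r - k) - sc (N * r - ((k + 1 : ℕ) : ℝ))
/-- centres of the tents -/
def rk (N k : ℕ) : ℝ := ((k + 1 : ℕ) : ℝ) / N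
/-- windows -/
def gk (δ : ℝ) (N k : ℕ) (r : ℝ) : ℝ := th δ r * √(tt N k r)

lemma th_cont (δ : ℝ) : Continuous (th δ) := by
  unfold th
  exact sc_cont.comp (by fun_prop)
lemma tt_cont (N k : ℕ) : Continuous (tt N k) := by
  unfold tt
  exact (sc_cont.comp (by fun_prop)).sub (sc_cont.comp (by fun_prop))
lemma gk_cont (δ : ℝ) (N k : ℕ) : Continuous (gk δ N k) := by
  unfold gk
  exact (th_cont δ).mul (Real.continuous_sqrt.comp (tt_cont N k))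

lemma tt_nonneg (N k : ℕ) (r : ℝ) : 0 ≤ tt N k r := by
  unfold tt
  have : sc (N * r - ((k + 1 : ℕ) : ℝ)) ≤ sc (N * r - k) := sc_mono (by push_cast; linarith)
  linarith

lemma tt_sum (N : ℕ) (r : ℝ) : ∑ k ∈ Finset.range N, tt N k r = sc (N * r) - sc (N * r - N) := by
  unfold tt
  rw [Finset.sum_range_sub' (fun k : ℕ => sc (N * r - k))]
  simp

lemma gk_sq (δ : ℝ) (N k : ℕ) (r : ℝ) : gk δ N k r ^ 2 = th δ r ^ 2 * tt N k r := by
  unfold gk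
  rw [mul_pow, Real.sq_sqrt (tt_nonneg N k r)]

lemma th_eq_zero {δ r : ℝ} (hδ : 0 < δ) (h : r ≤ δ / 2) : th δ r = 0 := by
  unfold th
  apply sc_of_nonpos
  rw [sub_nonpos, div_le_one hδ]
  linarith

lemma th_eq_one {δ r : ℝ} (hδ : 0 < δ) (h : δ ≤ r) : th δ r = 1 := by
  unfold th
  apply sc_of_one_le
  have : 2 ≤ 2 * r / δ := by rw [le_div_iff₀ hδ]; linarith
  linarith

lemma th_nonneg (δ r : ℝ) : 0 ≤ th δ r := sc_nonneg _
lemma th_le_one (δ r : ℝ) : th δ r ≤ 1 := sc_le_one _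

lemma gk_sum {δ : ℝ} (hδ : 0 < δ) {N : ℕ} (hN : 8 / δ ≤ N) {r : ℝ} (hr : r ≤ 1) :
    ∑ k ∈ Finset.range N, gk δ N k r ^ 2 = th δ r ^ 2 := by
  simp only [gk_sq]
  rw [← Finset.mul_sum, tt_sum]
  rcases le_or_gt r (δ / 2) with h | h
  · rw [th_eq_zero hδ h]; ring
  · have h1 : (1 : ℝ) ≤ N * r := by
      rw [div_le_iff₀ hδ] at hN
      have hN0 : (0 : ℝ) ≤ N := Nat.cast_nonneg N
      nlinarith
    have h2 : (N : ℝ) * r - N ≤ 0 := by
      have hN0 : (0 : ℝ) ≤ N := Nat.cast_nonneg N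
      nlinarith
    rw [sc_of_one_le h1, sc_of_nonpos h2]
    ring

lemma gk_supp {δ : ℝ} (hδ : 0 < δ) {N : ℕ} (hN : 8 / δ ≤ N) {k : ℕ} {r : ℝ}
    (h : gk δ N k r ≠ 0) : δ / 2 < r ∧ |r - rk N k| ≤ 1 / N ∧ (0 : ℝ) < N := by
  have hN0 : (0 : ℝ) < N := lt_of_lt_of_le (by positivity) hN
  have h1 : th δ r ≠ 0 := fun h0 => h (by unfold gk; rw [h0, zero_mul])
  have h2 : tt N k r ≠ 0 := fun h0 => h (by unfold gk; rw [h0, Real.sqrt_zero, mul_zero])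
  refine ⟨?_, ?_, hN0⟩
  · by_contra hcon
    exact h1 (th_eq_zero hδ (not_lt.1 hcon))
  · have h3 : (0 : ℝ) < N * r - k := by
      by_contra hcon
      push Not at hcon
      apply h2
      unfold tt
      rw [sc_of_nonpos hcon, sc_of_nonpos (by push_cast; linarith), sub_zero]
    have h4 : (N : ℝ) * r - ((k + 1 : ℕ) : ℝ) < 1 := by
      by_contra hcon
      push Not at hcon
      apply h2
      unfold tt
      rw [sc_of_one_le hcon, sc_of_one_le (by push_cast at hcon; linarith), sub_self]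
    rw [show r - rk N k = (N * r - ((k + 1 : ℕ) : ℝ)) / N by unfold rk; field_simp, abs_div,
      abs_of_pos hN0]
    gcongr
    rw [abs_le]
    constructor
    · push_cast; linarith
    · exact h4.le

/-- comparison of `r` and the centre of the window -/
lemma gk_comp {δ : ℝ} (hδ : 0 < δ) {N : ℕ} (hN : 8 / δ ≤ N) {k : ℕ} {r : ℝ}
    (h : gk δ N k r ≠ 0) : δ / 2 < r ∧ r ≤ 4 * rk N k ∧ rk N k ≤ 4 * r ∧ δ / 4 ≤ rk N k := by
  obtain ⟨h1, h2, h3⟩ := gk_supp hδ hN h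
  have h4 : 1 / (N : ℝ) ≤ δ / 8 := by
    rw [div_le_div_iff₀ h3 (by norm_num)]
    rw [div_le_iff₀ hδ] at hN
    linarith
  rw [abs_le] at h2
  refine ⟨h1, ?_, ?_, ?_⟩ <;> linarith [h2.1, h2.2]

/-- `max r (δ/2)` -/
def qq (δ r : ℝ) : ℝ := max r (δ / 2)

lemma qq_cont (δ : ℝ) : Continuous (qq δ) := by unfold qq; fun_prop
lemma qq_pos {δ : ℝ} (hδ : 0 < δ) (r : ℝ) : 0 < qq δ r := lt_of_lt_of_le (by linarith) (le_max_right _ _)
lemma qq_eq {δ r : ℝ} (h : δ / 2 < r) : qq δ r = r := max_eq_left h.le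

lemma w1 {δ : ℝ} (hδ : 0 < δ) {N : ℕ} (hN : 8 / δ ≤ N) (k : ℕ) (r : ℝ) :
    gk δ N k r / qq δ r * r = gk δ N k r := by
  rcases eq_or_ne (gk δ N k r) 0 with h | h
  · rw [h]; simp
  · obtain ⟨h1, -, -, -⟩ := gk_comp hδ hN h
    rw [qq_eq h1]
    have : r ≠ 0 := by linarith
    field_simp

lemma quarter_sq {r : ℝ} (hr : 0 ≤ r) : (r ^ (1 / 4 : ℝ)) ^ 2 = √r := by
  rw [← Real.rpow_natCast, ← Real.rpow_mul hr, Real.sqrt_eq_rpow]
  norm_num

lemma three_quarter_sq {r : ℝ} (hr : 0 < r) : (r ^ (3 / 4 : ℝ)) ^ 2 = r * √r := by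
  rw [← Real.rpow_natCast, ← Real.rpow_mul hr.le, Real.sqrt_eq_rpow]
  nth_rewrite 2 [← Real.rpow_one r]
  rw [← Real.rpow_add hr]
  norm_num

/-- `κ = 1/√r_k` -/
def kk (N k : ℕ) : ℝ := (√(rk N k))⁻¹

lemma rk_pos {N k : ℕ} (hk : k < N) : 0 < rk N k := by
  unfold rk
  have : (0 : ℝ) < N := by exact_mod_cast (Nat.zero_le k).trans_lt hk
  positivity

lemma rk_le_one {N k : ℕ} (hk : k < N) : rk N k ≤ 1 := by
  unfold rk
  have : (0 : ℝ) < N := by exact_mod_cast (Nat.zero_le k).trans_lt hk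
  rw [div_le_one this]
  exact_mod_cast hk

lemma kk_one_le {N k : ℕ} (hk : k < N) : 1 ≤ kk N k := by
  unfold kk
  rw [one_le_inv₀ (Real.sqrt_pos.2 (rk_pos hk))]
  exact Real.sqrt_le_one.2 (rk_le_one hk)

lemma kk_sq {N k : ℕ} (hk : k < N) : kk N k ^ 2 = (rk N k)⁻¹ := by
  unfold kk
  rw [inv_pow, Real.sq_sqrt (rk_pos hk).le]

lemma sqrt_le_two {a b : ℝ} (h : a ≤ 4 * b) : √a ≤ 2 * √b := by
  rw [show (2 : ℝ) * √b = √(4 * b) by
    rw [Real.sqrt_mul (by norm_num), show (4 : ℝ) = 2 ^ 2 by norm_num, Real.sqrt_sq (by norm_num)]]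
  exact Real.sqrt_le_sqrt h

/-- lower bound -/
lemma w2 {δ : ℝ} (hδ : 0 < δ) {N : ℕ} (hN : 8 / δ ≤ N) {r : ℝ} (hr0 : 0 ≤ r) (hr : r ≤ 1) :
    (1 / 2 : ℝ) * th δ r ^ 2 ≤
      ∑ k ∈ Finset.range N, kk N k * (gk δ N k r * r ^ (1 / 4 : ℝ)) ^ 2 := by
  rw [← gk_sum hδ hN hr, Finset.mul_sum]
  refine Finset.sum_le_sum fun k hk => ?_
  rw [Finset.mem_range] at hk
  rcases eq_or_ne (gk δ N k r) 0 with h | h
  · rw [h]; simp
  · obtain ⟨h1, h2, h3, h4⟩ := gk_comp hδ hN h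
    rw [mul_pow, quarter_sq hr0]
    have h5 : (1 / 2 : ℝ) ≤ kk N k * √r := by
      unfold kk
      rw [inv_mul_eq_div, le_div_iff₀ (Real.sqrt_pos.2 (rk_pos hk))]
      have := sqrt_le_two h3
      linarith
    calc (1 / 2 : ℝ) * gk δ N k r ^ 2 ≤ kk N k * √r * gk δ N k r ^ 2 := by gcongr
      _ = _ := by ring

/-- upper bound, second inhomogeneity -/
lemma w3 {δ : ℝ} (hδ : 0 < δ) {N : ℕ} (hN : 8 / δ ≤ N) {r : ℝ} (hr : r ≤ 1) :
    ∑ k ∈ Finset.range N, ((√(kk N k))⁻¹ * (gk δ N k r / qq δ r * r ^ (3 / 4 : ℝ))) ^ 2 ≤ 2 := by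
  have h0 : ∑ k ∈ Finset.range N, gk δ N k r ^ 2 ≤ 1 := by
    rw [gk_sum hδ hN hr]
    have := th_le_one δ r
    have := th_nonneg δ r
    nlinarith
  calc _ ≤ ∑ k ∈ Finset.range N, 2 * gk δ N k r ^ 2 := ?_
    _ = 2 * ∑ k ∈ Finset.range N, gk δ N k r ^ 2 := by rw [Finset.mul_sum]
    _ ≤ 2 := by linarith
  refine Finset.sum_le_sum fun k hk => ?_
  rw [Finset.mem_range] at hk
  rcases eq_or_ne (gk δ N k r) 0 with h | h
  · rw [h]; simp
  · obtain ⟨h1, h2, h3, h4⟩ := gk_comp hδ hN h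
    have hr0 : 0 < r := by linarith
    have hkk : 0 < kk N k := lt_of_lt_of_le one_pos (kk_one_le hk)
    rw [mul_pow, mul_pow, inv_pow, Real.sq_sqrt hkk.le, three_quarter_sq hr0, qq_eq h1, div_pow]
    have h5 : (kk N k)⁻¹ = √(rk N k) := by unfold kk; rw [inv_inv]
    rw [h5]
    have h6 := sqrt_le_two h3
    have h7 : √(rk N k) * (gk δ N k r ^ 2 / r ^ 2 * (r * √r)) =
        gk δ N k r ^ 2 * (√(rk N k) * √r / r) := by
      field_simp
    rw [h7, mul_comm]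
    refine mul_le_mul_of_nonneg_right ?_ (sq_nonneg _)
    rw [div_le_iff₀ hr0]
    have h8 : √r * √r = r := Real.mul_self_sqrt hr0.le
    nlinarith [Real.sqrt_nonneg r]

/-- upper bound, third inhomogeneity -/
lemma w4 {δ : ℝ} (hδ : 0 < δ) {N : ℕ} (hN : 8 / δ ≤ N) {r : ℝ} (hr : r ≤ 1) :
    ∑ k ∈ Finset.range N, gk δ N k r ^ 2 ≤ 1 := by
  rw [gk_sum hδ hN hr]
  have := th_le_one δ r
  have := th_nonneg δ r
  nlinarith

/-- upper bound, error term -/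
lemma w5 {δ : ℝ} (hδ : 0 < δ) {N : ℕ} (hN : 8 / δ ≤ N) {r : ℝ} (hr : r ≤ 1) :
    ∑ k ∈ Finset.range N, (gk δ N k r * ((qq δ r)⁻¹ - (rk N k)⁻¹)) ^ 2 ≤
      (8 / (N * δ ^ 2)) ^ 2 := by
  calc _ ≤ ∑ k ∈ Finset.range N, (8 / (N * δ ^ 2)) ^ 2 * gk δ N k r ^ 2 := ?_
    _ = (8 / (N * δ ^ 2)) ^ 2 * ∑ k ∈ Finset.range N, gk δ N k r ^ 2 := by rw [Finset.mul_sum]
    _ ≤ (8 / (N * δ ^ 2)) ^ 2 * 1 := by gcongr; exact w4 hδ hN hr
    _ = _ := mul_one _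
  refine Finset.sum_le_sum fun k hk => ?_
  rcases eq_or_ne (gk δ N k r) 0 with h | h
  · rw [h]; simp
  · obtain ⟨h1, h2, h3, h4⟩ := gk_comp hδ hN h
    obtain ⟨-, h5, h6⟩ := gk_supp hδ hN h
    have hr0 : 0 < r := by linarith
    have hrk : 0 < rk N k := by linarith
    rw [mul_pow, mul_comm]
    refine mul_le_mul_of_nonneg_right ?_ (sq_nonneg _)
    rw [qq_eq h1, ← sq_abs (r⁻¹ - (rk N k)⁻¹)]
    refine pow_le_pow_left₀ (abs_nonneg _) ?_ 2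
    rw [inv_sub_inv hr0.ne' hrk.ne', abs_div, abs_of_pos (mul_pos hr0 hrk), abs_sub_comm,
      div_le_div_iff₀ (by positivity) (by positivity)]
    rw [le_div_iff₀ h6] at h5
    have h7 : δ ^ 2 ≤ 8 * (r * rk N k) := by
      nlinarith
    calc |r - rk N k| * (N * δ ^ 2) = (|r - rk N k| * N) * δ ^ 2 := by ring
      _ ≤ 1 * δ ^ 2 := by gcongr
      _ ≤ _ := by linarith

end Pool.Agent.H788.HK
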