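import Pool.Agent.H788.HK.Cfc
import Pool.Agent.H788.HK.Step
import Pool.Agent.H788.HK.Win

set_option autoImplicit false

noncomputable section

namespace Pool.Agent.H788.HK

open MeasureTheory Filter Topology Set
open scoped ENNReal NNReal ComplexConjugate InnerProductSpace
open Pool.Agent.H998.HK

variable {H : Type} [NormedAddCommGroup H] [InnerProductSpace ℂ H] [CompleteSpace H]
variable {R : H →L[ℂ] H}

/-- strong convergence of the spectral cut-off to the identity -/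
lemma cut_tendsto (hR : GoodR R) (h : H) :
    Tendsto (fun n : ℕ => cfc (th (1 / ((n : ℝ) + 1))) R h) atTop (𝓝 h) := by
  have hsa := hR.sa
  -- uniform bound
  have hb : ∀ (δ : ℝ) (x : H), ‖cfc (fun r => 1 - th δ r) R x‖ ≤ 1 * ‖x‖ := by
    intro δ x
    refine norm_cfc_le hsa (continuous_const.sub (th_cont δ)).continuousOn zero_le_one ?_ x
    intro r _
    have := th_nonneg δ r
    have := th_le_one δ r
    change |1 - th δ r| ≤ 1
    rw [abs_le]
    constructor <;> linarith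
  have hone : ∀ (δ : ℝ) (x : H), cfc (fun r => 1 - th δ r) R x = x - cfc (th δ) R x := by
    intro δ x
    have := cfc_sub (fun _ : ℝ => (1 : ℝ)) (th δ) R continuousOn_const (th_cont δ).continuousOn
    rw [cfc_const_one ℝ R] at this
    rw [this]
    rfl
  -- dense range
  have hdense : ∀ y : H, ∀ ε : ℝ, 0 < ε → ∃ z : H, ‖y - R z‖ < ε := by
    have h1 : (LinearMap.range (R : H →ₗ[ℂ] H)).topologicalClosure = ⊤ := by
      rw [Submodule.topologicalClosure_eq_top_iff]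
      have := ContinuousLinearMap.orthogonal_range R
      rw [hsa.adjoint_eq] at this
      refine this.trans ?_
      exact LinearMap.ker_eq_bot.2 hR.inj
    intro y ε hε
    have h2 : y ∈ (LinearMap.range (R : H →ₗ[ℂ] H)).topologicalClosure := by rw [h1]; trivial
    obtain ⟨_, ⟨z, rfl⟩, hz⟩ := Metric.mem_closure_iff.1 h2 ε hε
    exact ⟨z, by rw [← dist_eq_norm]; exact hz⟩
  rw [Metric.tendsto_atTop]
  intro ε hε
  obtain ⟨z, hz⟩ := hdense h (ε / 2) (by linarith)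
  obtain ⟨N, hN⟩ := exists_nat_gt (‖z‖ / (ε / 2))
  refine ⟨N, fun n hn => ?_⟩
  set δ : ℝ := 1 / ((n : ℝ) + 1) with hδ
  have hδ0 : 0 < δ := by positivity
  rw [dist_comm, dist_eq_norm, ← hone]
  have e1 : cfc (fun r => 1 - th δ r) R h = cfc (fun r => 1 - th δ r) R (h - R z) +
      cfc (fun r => (1 - th δ r) * r) R z := by
    have e2 := cfc_mul (fun r => 1 - th δ r) (fun r => r) R
      (continuous_const.sub (th_cont δ)).continuousOn continuousOn_id
    rw [cfc_id' ℝ R] at e2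
    rw [e2, map_sub]
    change _ = _ - _ + cfc (fun r => 1 - th δ r) R (R z)
    abel
  rw [e1]
  have b1 := hb δ (h - R z)
  have b2 : ‖cfc (fun r => (1 - th δ r) * r) R z‖ ≤ δ * ‖z‖ := by
    refine norm_cfc_le hsa ?_ hδ0.le ?_ z
    · exact ((continuous_const.sub (th_cont δ)).mul continuous_id).continuousOn
    · intro r hr
      have hr0 := (hR.spec r hr).1
      rcases le_or_gt δ r with h1 | h1
      · rw [th_eq_one hδ0 h1]; simp [hδ0.le]
      · have := th_nonneg δ r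
        have := th_le_one δ r
        rw [abs_of_nonneg (mul_nonneg (by linarith) hr0)]
        nlinarith
  have b3 : δ * ‖z‖ < ε / 2 := by
    rw [div_lt_iff₀ (by linarith)] at hN
    rw [hδ, one_div, inv_mul_eq_div, div_lt_iff₀ (by positivity)]
    have : (N : ℝ) ≤ n := by exact_mod_cast hn
    nlinarith
  calc _ ≤ ‖cfc (fun r => 1 - th δ r) R (h - R z)‖ + ‖cfc (fun r => (1 - th δ r) * r) R z‖ :=
        norm_add_le _ _
    _ < ε := by linarith

theorem t_HCAR2 : S_HCAR2 := by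
  rintro ⟨C, hC⟩
  refine ⟨1 / ((C : ℝ) + 1), by positivity, 8 * C, ?_⟩
  intro H _ _ _ _ R hR V ρ r0 M m χ ξ g g₃ D hV hρ hρr hr0 hm hM hMr hVM hχ hξ hg hg₃ hD hχξ hW
    hVχ hE h0
  have hsa := hR.sa
  have hr0' : 0 < r0 := hρ.trans hρr
  have hspec : ∀ r ∈ spectrum ℝ R, 0 ≤ r ∧ r ≤ 1 := hR.spec
  -- the smallness condition
  have hCM : (C : ℝ≥0∞) * ENNReal.ofReal ((M + r0) ^ 2) ≤ 1 := by
    rw [← ENNReal.ofReal_coe_nnreal, ← ENNReal.ofReal_mul (by positivity), ← ENNReal.ofReal_one]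
    apply ENNReal.ofReal_le_ofReal
    have hC0 : (0 : ℝ) ≤ C := C.2
    have h1 : (M + r0) ^ 2 ≤ (1 / ((C : ℝ) + 1)) ^ 2 := by
      apply pow_le_pow_left₀ (by linarith) hMr
    have h2 : (C : ℝ) * (1 / ((C : ℝ) + 1)) ^ 2 ≤ 1 := by
      rw [div_pow, one_pow, mul_one_div, div_le_one (by positivity)]
      nlinarith
    calc (C : ℝ) * (M + r0) ^ 2 ≤ (C : ℝ) * (1 / ((C : ℝ) + 1)) ^ 2 := by gcongr
      _ ≤ 1 := h2
  have h0' : ∀ x, (‖x‖ < ρ ∨ r0 < ‖x‖) → χ x = 0 ∧ g x = 0 ∧ g₃ x = 0 ∧ ∀ i, D i x = 0 := by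
    intro x hx
    obtain ⟨a1, a2, a3, a4⟩ := h0 x hx
    exact ⟨by rw [hχξ, a1, map_zero], a2, a3, a4⟩
  have cq : ContinuousOn (fun r : ℝ => r ^ (1 / 4 : ℝ)) (spectrum ℝ R) :=
    (Real.continuous_rpow_const (by norm_num)).continuousOn
  have ctq : ContinuousOn (fun r : ℝ => r ^ (3 / 4 : ℝ)) (spectrum ℝ R) :=
    (Real.continuous_rpow_const (by norm_num)).continuousOn
  -- the main estimate with a spectral cut-off
  set W : ℝ≥0∞ := ∫⁻ x, om2 m x * ENNReal.ofReal (‖g x‖ ^ 2 + ‖g₃ x‖ ^ 2) with hWdef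
  set X : ℝ≥0∞ := ∫⁻ x, om2 m x * ENNReal.ofReal (‖χ x‖ ^ 2) with hXdef
  have hX : X < ∞ := by
    refine lt_of_le_of_lt (om2_bound hρ ?_)
      (ENNReal.mul_lt_top ENNReal.ofReal_lt_top (lint_sq_lt_top hχ))
    intro x hx
    rw [(h0' x (Or.inl hx)).1]; simp
  set Cb : ℝ≥0∞ := C * ENNReal.ofReal ((M + r0) ^ 2) with hCb
  have main : ∀ δ : ℝ, 0 < δ → ∀ N : ℕ, 8 / δ ≤ N →
      ENNReal.ofReal (1 / 2) * ∫⁻ x, om2 m x * ENNReal.ofReal (‖cfc (th δ) R (ξ x)‖ ^ 2) ≤
        Cb * (ENNReal.ofReal 2 * W + ENNReal.ofReal (2 * (8 / (N * δ ^ 2)) ^ 2) * X) := by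
    intro δ hδ N hN
    -- the operators
    let G : ℕ → H →L[ℂ] H := fun k => cfc (gk δ N k) R
    let L : ℕ → H →L[ℂ] H := fun k => cfc (fun r => gk δ N k r / qq δ r) R
    let E : ℕ → H →L[ℂ] H := fun k => cfc (fun r => gk δ N k r * ((qq δ r)⁻¹ - (rk N k)⁻¹)) R
    have cg : ∀ k, ContinuousOn (gk δ N k) (spectrum ℝ R) := fun k => (gk_cont δ N k).continuousOn
    have cqi : Continuous (fun r => (qq δ r)⁻¹) :=
      (qq_cont δ).inv₀ fun r => (qq_pos hδ r).ne'
    have cl : ∀ k, ContinuousOn (fun r => gk δ N k r / qq δ r) (spectrum ℝ R) := fun k =>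
      ((gk_cont δ N k).div (qq_cont δ) fun r => (qq_pos hδ r).ne').continuousOn
    have ce : ∀ k, ContinuousOn (fun r => gk δ N k r * ((qq δ r)⁻¹ - (rk N k)⁻¹))
        (spectrum ℝ R) := fun k =>
      ((gk_cont δ N k).mul (cqi.sub continuous_const)).continuousOn
    have hLR : ∀ k, L k * R = G k := by
      intro k
      have := cfc_mul (fun r => gk δ N k r / qq δ r) (fun r => r) R (cl k) continuousOn_id
      rw [cfc_id' ℝ R] at this
      simp only [L, G]
      rw [← this]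
      congr 1
      funext r
      exact w1 hδ hN k r
    have hLE : ∀ k, k < N → L k = kk N k ^ 2 • G k + E k := by
      intro k hk
      simp only [L, G, E]
      rw [← cfc_const_mul (kk N k ^ 2) (gk δ N k) R (cg k), ← cfc_add _ _ _ (by fun_prop) (ce k)]
      congr 1
      funext r
      rw [kk_sq hk]
      ring
    have hstep : ∀ k, k < N → _ := fun k hk =>
      step hC hV hρ hρr hr0 hm hM hCM hVM hχ hg hg₃ hD hW hVχ hE h0' (kk_one_le hk) (G k) (L k)
        (E k) (hLR k) (hLE k hk)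
    -- measurability
    have mG : ∀ (A : H →L[ℂ] H) (F : E3 → H), MemLp F 2 →
        AEMeasurable (fun x => om2 m x * ENNReal.ofReal (‖A (F x)‖ ^ 2)) := by
      intro A F hF
      refine (om2_meas m).aemeasurable.mul ?_
      refine ENNReal.measurable_ofReal.comp_aemeasurable ?_
      exact ((A.comp_memLp' hF).aestronglyMeasurable.norm.aemeasurable.pow_const 2)
    -- the left side
    have left : ENNReal.ofReal (1 / 2) *
        ∫⁻ x, om2 m x * ENNReal.ofReal (‖cfc (th δ) R (ξ x)‖ ^ 2) ≤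
        ∑ k ∈ Finset.range N, ENNReal.ofReal (kk N k) *
          ∫⁻ x, om2 m x * ENNReal.ofReal (‖G k (χ x)‖ ^ 2) := by
      rw [← lintegral_const_mul' _ _ ENNReal.ofReal_ne_top]
      have e1 : ∑ k ∈ Finset.range N, ENNReal.ofReal (kk N k) *
          ∫⁻ x, om2 m x * ENNReal.ofReal (‖G k (χ x)‖ ^ 2) =
          ∫⁻ x, ∑ k ∈ Finset.range N, ENNReal.ofReal (kk N k) *
            (om2 m x * ENNReal.ofReal (‖G k (χ x)‖ ^ 2)) := by
        rw [lintegral_finsetSum' _ fun k _ => (mG (G k) χ hχ).const_mul _]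
        refine Finset.sum_congr rfl fun k _ => ?_
        rw [lintegral_const_mul' _ _ ENNReal.ofReal_ne_top]
      rw [e1]
      refine lintegral_mono fun x => ?_
      change ENNReal.ofReal (1 / 2) * (om2 m x * ENNReal.ofReal (‖cfc (th δ) R (ξ x)‖ ^ 2)) ≤
        ∑ k ∈ Finset.range N, ENNReal.ofReal (kk N k) *
            (om2 m x * ENNReal.ofReal (‖G k (χ x)‖ ^ 2))
      have e2 : ∑ k ∈ Finset.range N, ENNReal.ofReal (kk N k) *
            (om2 m x * ENNReal.ofReal (‖G k (χ x)‖ ^ 2)) =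
          om2 m x * ENNReal.ofReal (∑ k ∈ Finset.range N, kk N k * ‖G k (χ x)‖ ^ 2) := by
        rw [ENNReal.ofReal_sum_of_nonneg, Finset.mul_sum]
        · refine Finset.sum_congr rfl fun k hk => ?_
          rw [ENNReal.ofReal_mul (zero_le_one.trans (kk_one_le (Finset.mem_range.1 hk)))]
          ring
        · intro k hk
          have := zero_le_one.trans (kk_one_le (Finset.mem_range.1 hk))
          positivity
      rw [e2, mul_left_comm, ← ENNReal.ofReal_mul (by norm_num)]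
      gcongr
      have e3 : ∀ k, G k (χ x) = cfc (fun r => gk δ N k r * r ^ (1 / 4 : ℝ)) R (ξ x) := by
        intro k
        rw [cfc_mul _ _ R (cg k) cq, hχξ]
        rfl
      simp only [e3]
      refine le_sum_sq hsa (Finset.range N) (fun k r => gk δ N k r * r ^ (1 / 4 : ℝ)) (kk N)
        (1 / 2) (th δ) (fun k _ => (cg k).mul cq) (th_cont δ).continuousOn ?_ (ξ x)
      intro r hr
      exact w2 hδ hN (hspec r hr).1 (hspec r hr).2
    -- the right side
    have right : ∑ k ∈ Finset.range N, ∫⁻ x, om2 m x *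
          ENNReal.ofReal (‖(√(kk N k))⁻¹ • (L k * Rpow R (3 / 4)) (g x)‖ ^ 2 +
            ‖G k (g₃ x) - E k (χ x)‖ ^ 2) ≤
        ENNReal.ofReal 2 * W + ENNReal.ofReal (2 * (8 / (N * δ ^ 2)) ^ 2) * X := by
      have m1 : ∀ k, AEMeasurable (fun x => om2 m x *
          ENNReal.ofReal (‖(√(kk N k))⁻¹ • (L k * Rpow R (3 / 4)) (g x)‖ ^ 2 +
            ‖G k (g₃ x) - E k (χ x)‖ ^ 2)) := by
        intro k
        refine (om2_meas m).aemeasurable.mul ?_
        refine ENNReal.measurable_ofReal.comp_aemeasurable ?_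
        refine AEMeasurable.add ?_ ?_
        · have : AEStronglyMeasurable (fun x => (√(kk N k))⁻¹ • (L k * Rpow R (3 / 4)) (g x)) :=
            (((L k * Rpow R (3 / 4)).comp_memLp' hg).aestronglyMeasurable).const_smul _
          exact this.norm.aemeasurable.pow_const 2
        · have : AEStronglyMeasurable (fun x => G k (g₃ x) - E k (χ x)) :=
            (((G k).comp_memLp' hg₃).aestronglyMeasurable).sub
              (((E k).comp_memLp' hχ).aestronglyMeasurable)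
          exact this.norm.aemeasurable.pow_const 2
      rw [← lintegral_finsetSum' _ fun k _ => m1 k]
      have e1 : ENNReal.ofReal 2 * W + ENNReal.ofReal (2 * (8 / (N * δ ^ 2)) ^ 2) * X =
          ∫⁻ x, om2 m x * ENNReal.ofReal (2 * (‖g x‖ ^ 2 + ‖g₃ x‖ ^ 2) +
            2 * (8 / (N * δ ^ 2)) ^ 2 * ‖χ x‖ ^ 2) := by
        rw [hWdef, hXdef, ← lintegral_const_mul' _ _ ENNReal.ofReal_ne_top,
          ← lintegral_const_mul' _ _ ENNReal.ofReal_ne_top, ← lintegral_add_right']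
        · refine lintegral_congr fun x => ?_
          have q1 : ENNReal.ofReal (2 * (‖g x‖ ^ 2 + ‖g₃ x‖ ^ 2) +
              2 * (8 / (N * δ ^ 2)) ^ 2 * ‖χ x‖ ^ 2) =
              ENNReal.ofReal 2 * ENNReal.ofReal (‖g x‖ ^ 2 + ‖g₃ x‖ ^ 2) +
              ENNReal.ofReal (2 * (8 / (N * δ ^ 2)) ^ 2) * ENNReal.ofReal (‖χ x‖ ^ 2) := by
            rw [← ENNReal.ofReal_mul (by norm_num), ← ENNReal.ofReal_mul (by positivity),
              ← ENNReal.ofReal_add (by positivity) (by positivity)]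
          rw [q1]
          ring
        · exact (mG (ContinuousLinearMap.id ℂ H) χ hχ).const_mul _
      rw [e1]
      refine lintegral_mono fun x => ?_
      change ∑ k ∈ Finset.range N, om2 m x *
          ENNReal.ofReal (‖(√(kk N k))⁻¹ • (L k * Rpow R (3 / 4)) (g x)‖ ^ 2 +
            ‖G k (g₃ x) - E k (χ x)‖ ^ 2) ≤ om2 m x * ENNReal.ofReal (2 * (‖g x‖ ^ 2 +
              ‖g₃ x‖ ^ 2) + 2 * (8 / (N * δ ^ 2)) ^ 2 * ‖χ x‖ ^ 2)
      rw [← Finset.mul_sum, ← ENNReal.ofReal_sum_of_nonneg fun k _ => by positivity]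
      gcongr
      rw [Finset.sum_add_distrib]
      have s1 : ∑ k ∈ Finset.range N, ‖(√(kk N k))⁻¹ • (L k * Rpow R (3 / 4)) (g x)‖ ^ 2 ≤
          2 * ‖g x‖ ^ 2 := by
        have e3 : ∀ k, (√(kk N k))⁻¹ • (L k * Rpow R (3 / 4)) (g x) =
            cfc (fun r => (√(kk N k))⁻¹ * (gk δ N k r / qq δ r * r ^ (3 / 4 : ℝ))) R (g x) := by
          intro k
          have q1 := cfc_const_mul (√(kk N k))⁻¹ (fun r => gk δ N k r / qq δ r * r ^ (3 / 4 : ℝ)) R
            ((cl k).mul ctq)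
          have q2 := cfc_mul (fun r => gk δ N k r / qq δ r) (fun r => r ^ (3 / 4 : ℝ)) R (cl k) ctq
          rw [q1, q2]
          rfl
        simp only [e3]
        refine sum_sq_le hsa (Finset.range N) (fun k r => (√(kk N k))⁻¹ *
          (gk δ N k r / qq δ r * r ^ (3 / 4 : ℝ))) 2
          (fun k _ => continuousOn_const.mul ((cl k).mul ctq)) ?_ (g x)
        intro r hr
        exact w3 hδ hN (hspec r hr).2
      have s2 : ∑ k ∈ Finset.range N, ‖G k (g₃ x)‖ ^ 2 ≤ 1 * ‖g₃ x‖ ^ 2 :=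
        sum_sq_le hsa (Finset.range N) (fun k => gk δ N k) 1 (fun k _ => cg k)
          (fun r hr => w4 hδ hN (hspec r hr).2) (g₃ x)
      have s3 : ∑ k ∈ Finset.range N, ‖E k (χ x)‖ ^ 2 ≤ (8 / (N * δ ^ 2)) ^ 2 * ‖χ x‖ ^ 2 :=
        sum_sq_le hsa (Finset.range N) (fun k r => gk δ N k r * ((qq δ r)⁻¹ - (rk N k)⁻¹)) _
          (fun k _ => ce k) (fun r hr => w5 hδ hN (hspec r hr).2) (χ x)
      have s4 : ∑ k ∈ Finset.range N, ‖G k (g₃ x) - E k (χ x)‖ ^ 2 ≤
          2 * ∑ k ∈ Finset.range N, ‖G k (g₃ x)‖ ^ 2 + 2 * ∑ k ∈ Finset.range N, ‖E k (χ x)‖ ^ 2 := by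
        rw [Finset.mul_sum, Finset.mul_sum, ← Finset.sum_add_distrib]
        refine Finset.sum_le_sum fun k _ => ?_
        have h5 := norm_sub_le (G k (g₃ x)) (E k (χ x))
        have h6 : ‖G k (g₃ x) - E k (χ x)‖ ^ 2 ≤ (‖G k (g₃ x)‖ + ‖E k (χ x)‖) ^ 2 := by gcongr
        nlinarith [sq_nonneg (‖G k (g₃ x)‖ - ‖E k (χ x)‖)]
      nlinarith
    refine left.trans ?_
    calc _ ≤ ∑ k ∈ Finset.range N, Cb * ∫⁻ x, om2 m x *
          ENNReal.ofReal (‖(√(kk N k))⁻¹ • (L k * Rpow R (3 / 4)) (g x)‖ ^ 2 +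
            ‖G k (g₃ x) - E k (χ x)‖ ^ 2) :=
          Finset.sum_le_sum fun k hk => hstep k (Finset.mem_range.1 hk)
      _ = Cb * ∑ k ∈ Finset.range N, ∫⁻ x, om2 m x *
          ENNReal.ofReal (‖(√(kk N k))⁻¹ • (L k * Rpow R (3 / 4)) (g x)‖ ^ 2 +
            ‖G k (g₃ x) - E k (χ x)‖ ^ 2) := by rw [Finset.mul_sum]
      _ ≤ _ := by gcongr
  -- `N → ∞`
  have main2 : ∀ δ : ℝ, 0 < δ →
      ∫⁻ x, om2 m x * ENNReal.ofReal (‖cfc (th δ) R (ξ x)‖ ^ 2) ≤ 4 * Cb * W := by
    intro δ hδ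
    have h3 : ENNReal.ofReal (1 / 2) *
        ∫⁻ x, om2 m x * ENNReal.ofReal (‖cfc (th δ) R (ξ x)‖ ^ 2) ≤
          Cb * (ENNReal.ofReal 2 * W) := by
      have hlim : Tendsto (fun N : ℕ => Cb * (ENNReal.ofReal 2 * W +
          ENNReal.ofReal (2 * (8 / (N * δ ^ 2)) ^ 2) * X)) atTop
          (𝓝 (Cb * (ENNReal.ofReal 2 * W + ENNReal.ofReal 0 * X))) := by
        have hCb' : Cb ≠ ∞ := (lt_of_le_of_lt hCM ENNReal.one_lt_top).ne
        refine ENNReal.Tendsto.const_mul ?_ (Or.inr hCb')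
        refine tendsto_const_nhds.add ?_
        refine ENNReal.Tendsto.mul_const ?_ (Or.inr hX.ne)
        refine ENNReal.tendsto_ofReal ?_
        have t1 : Tendsto (fun N : ℕ => 8 / δ ^ 2 * (1 / (N : ℝ))) atTop (𝓝 (8 / δ ^ 2 * 0)) :=
          tendsto_const_nhds.mul tendsto_one_div_atTop_nhds_zero_nat
        have t2 := (t1.pow 2).const_mul 2
        simp only [mul_zero, ne_eq, OfNat.ofNat_ne_zero, not_false_eq_true, zero_pow] at t2
        refine t2.congr fun N => ?_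
        congr 2
        rw [mul_one_div, div_div, mul_comm (δ ^ 2)]
      rw [ENNReal.ofReal_zero, zero_mul, add_zero] at hlim
      obtain ⟨N0, hN0⟩ := exists_nat_ge (8 / δ)
      refine ge_of_tendsto hlim ?_
      filter_upwards [eventually_ge_atTop N0] with N hN
      exact main δ hδ N (hN0.trans (by exact_mod_cast hN))
    have h4 : ENNReal.ofReal 2 * (ENNReal.ofReal (1 / 2) *
        ∫⁻ x, om2 m x * ENNReal.ofReal (‖cfc (th δ) R (ξ x)‖ ^ 2)) ≤
        ENNReal.ofReal 2 * (Cb * (ENNReal.ofReal 2 * W)) := by gcongr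
    rw [← mul_assoc, ← ENNReal.ofReal_mul (by norm_num), show (2 : ℝ) * (1 / 2) = 1 by norm_num,
      ENNReal.ofReal_one, one_mul] at h4
    refine h4.trans (le_of_eq ?_)
    rw [show (4 : ℝ≥0∞) = ENNReal.ofReal 2 * ENNReal.ofReal 2 by
      rw [← ENNReal.ofReal_mul (by norm_num)]; norm_num]
    ring
  -- `δ → 0`
  have hfat : ∫⁻ x, om2 m x * ENNReal.ofReal (‖ξ x‖ ^ 2) ≤
      liminf (fun n : ℕ => ∫⁻ x, om2 m x *
        ENNReal.ofReal (‖cfc (th (1 / ((n : ℝ) + 1))) R (ξ x)‖ ^ 2)) atTop := by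
    refine le_trans (le_of_eq ?_) (lintegral_liminf_le' fun n => ?_)
    · refine lintegral_congr fun x => ?_
      refine (Tendsto.liminf_eq ?_).symm
      refine ENNReal.Tendsto.const_mul ?_ (Or.inr ?_)
      · refine ENNReal.tendsto_ofReal ?_
        exact ((cut_tendsto hR (ξ x)).norm).pow 2
      · unfold om2
        exact ENNReal.ofReal_ne_top
    · refine (om2_meas m).aemeasurable.mul ?_
      refine ENNReal.measurable_ofReal.comp_aemeasurable ?_
      exact (((cfc (th (1 / ((n : ℝ) + 1))) R).comp_memLp' hξ).aestronglyMeasurable.norm.aemeasurable.pow_const 2)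
  refine hfat.trans ?_
  refine (liminf_le_of_frequently_le' (x := 4 * Cb * W) ?_).trans ?_
  · exact (Eventually.of_forall fun n => main2 _ (by positivity)).frequently
  · rw [hCb]
    have : ((8 * C : ℝ≥0) : ℝ≥0∞) = 8 * C := by push_cast; rfl
    rw [this]
    have h8 : (4 : ℝ≥0∞) ≤ 8 := by norm_num
    calc 4 * (↑C * ENNReal.ofReal ((M + r0) ^ 2)) * W
        ≤ 8 * (↑C * ENNReal.ofReal ((M + r0) ^ 2)) * W := by gcongr
      _ = _ := by ring

end Pool.Agent.H788.HK
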